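import Mathlib

/-!
# Transvections over the field with two elements

`V` is a vector space over `ZMod 2`, `G = V ≃ₗ[ZMod 2] V`.
-/

namespace H54.UPM.Idx

open Module

variable {V : Type} [AddCommGroup V] [Module (ZMod 2) V]

theorem z2 (a : ZMod 2) : a = 0 ∨ a = 1 := by revert a; decide

theorem z2_ne {a : ZMod 2} (h : a ≠ 0) : a = 1 := by revert a; decide

theorem z2_ne' {a : ZMod 2} (h : a ≠ 1) : a = 0 := by revert a; decide

theorem vv (v : V) : v + v = 0 := ZModModule.add_self v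

theorem add_eq_zero_iff' {v w : V} : v + w = 0 ↔ v = w := by
  constructor
  · intro h
    have : v + w + w = w := by rw [h, zero_add]
    rwa [add_assoc, vv, add_zero] at this
  · rintro rfl; exact vv v

open Classical in
/-- The transvection `1 + v φ` if `φ v = 0`, and the identity otherwise. -/
noncomputable def tv (v : V) (φ : Dual (ZMod 2) V) : V ≃ₗ[ZMod 2] V :=
  if h : φ v = 0 then LinearEquiv.transvection h else 1

theorem tv_apply {v : V} {φ : Dual (ZMod 2) V} (h : φ v = 0) (x : V) :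
    tv v φ x = x + φ x • v := by
  rw [tv, dif_pos h, LinearEquiv.transvection.apply]

theorem tv_conj (g : V ≃ₗ[ZMod 2] V) (v : V) (φ : Dual (ZMod 2) V) :
    g * tv v φ * g⁻¹ = tv (g v) (φ.comp (g⁻¹ : V ≃ₗ[ZMod 2] V).toLinearMap) := by
  have hg : ∀ x, (g⁻¹ : V ≃ₗ[ZMod 2] V) (g x) = x := fun x => by
    rw [← LinearEquiv.mul_apply, inv_mul_cancel]; rfl
  have hg' : ∀ x, g ((g⁻¹ : V ≃ₗ[ZMod 2] V) x) = x := fun x => by
    rw [← LinearEquiv.mul_apply, mul_inv_cancel]; rfl
  by_cases h : φ v = 0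
  · have h' : (φ.comp (g⁻¹ : V ≃ₗ[ZMod 2] V).toLinearMap) (g v) = 0 := by
      simp only [LinearMap.comp_apply, LinearEquiv.coe_coe, hg, h]
    ext x
    rw [LinearEquiv.mul_apply, LinearEquiv.mul_apply, tv_apply h, tv_apply h', map_add, map_smul,
      hg']
    rfl
  · have h' : ¬ (φ.comp (g⁻¹ : V ≃ₗ[ZMod 2] V).toLinearMap) (g v) = 0 := by
      simp only [LinearMap.comp_apply, LinearEquiv.coe_coe, hg]
      exact h
    rw [tv, dif_neg h, tv, dif_neg h', mul_one, mul_inv_cancel]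

theorem tv_zero (v : V) : tv v (0 : Dual (ZMod 2) V) = 1 := by
  ext x
  rw [tv_apply (by simp)]
  simp

theorem tv_add {v : V} {φ ψ : Dual (ZMod 2) V} (hφ : φ v = 0) (hψ : ψ v = 0) :
    tv v φ * tv v ψ = tv v (φ + ψ) := by
  have h : (φ + ψ) v = 0 := by simp [hφ, hψ]
  ext x
  rw [LinearEquiv.mul_apply, tv_apply hψ, tv_apply hφ, tv_apply h]
  simp only [map_add, map_smul, hφ, smul_zero, add_zero, LinearMap.add_apply, add_smul]
  abel

theorem tv_add_left {v w : V} {φ : Dual (ZMod 2) V} (hv : φ v = 0) (hw : φ w = 0) :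
    tv v φ * tv w φ = tv (v + w) φ := by
  have h : φ (v + w) = 0 := by simp [hv, hw]
  ext x
  rw [LinearEquiv.mul_apply, tv_apply hw, tv_apply hv, tv_apply h]
  simp only [map_add, map_smul, hw, smul_zero, add_zero, smul_add]
  abel

theorem dual_add_self (φ : Dual (ZMod 2) V) : φ + φ = 0 := by
  ext x
  simp only [LinearMap.add_apply, LinearMap.zero_apply]
  exact CharTwo.add_self_eq_zero _

theorem tv_sq (v : V) (φ : Dual (ZMod 2) V) : tv v φ * tv v φ = 1 := by
  by_cases h : φ v = 0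
  · rw [tv_add h h, dual_add_self, tv_zero]
  · rw [tv, dif_neg h, one_mul]

theorem tv_inv (v : V) (φ : Dual (ZMod 2) V) : (tv v φ)⁻¹ = tv v φ :=
  inv_eq_of_mul_eq_one_left (tv_sq v φ)

theorem tv_tv (v : V) (φ : Dual (ZMod 2) V) (x : V) : tv v φ (tv v φ x) = x := by
  rw [← LinearEquiv.mul_apply, tv_sq]; rfl

theorem tv_fix {v : V} {φ : Dual (ZMod 2) V} (h : φ v = 0) {x : V} (hx : φ x = 0) :
    tv v φ x = x := by
  rw [tv_apply h, hx, zero_smul, add_zero]

theorem tv_move {v : V} {φ : Dual (ZMod 2) V} (h : φ v = 0) {x : V} (hx : φ x = 1) :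
    tv v φ x = x + v := by
  rw [tv_apply h, hx, one_smul]

/-- A functional which vanishes on `W` and takes the value `1` at two given vectors. -/
theorem exists_fun (W : Submodule (ZMod 2) V) {u u' : V} (hu : u ∉ W) (hu' : u' ∉ W) :
    ∃ β : Dual (ZMod 2) V, (∀ w ∈ W, β w = 0) ∧ β u = 1 ∧ β u' = 1 := by
  have h1 : u ∉ W ⊔ Submodule.span (ZMod 2) {u + u'} := by
    intro h
    rw [Submodule.mem_sup] at h
    obtain ⟨w, hw, z, hz, h⟩ := h
    rw [Submodule.mem_span_singleton] at hz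
    obtain ⟨a, rfl⟩ := hz
    rcases z2 a with rfl | rfl
    · rw [zero_smul, add_zero] at h
      exact hu (h ▸ hw)
    · rw [one_smul] at h
      have h2 : w + u' = 0 := by
        have h3 : w + (u + u') + u = u + u := by rw [h]
        rw [vv] at h3
        rw [← h3]
        have := vv u
        calc w + u' = w + u' + (u + u) := by rw [this, add_zero]
          _ = w + (u + u') + u := by abel
      rw [add_eq_zero_iff'] at h2
      exact hu' (h2 ▸ hw)
  obtain ⟨β, hβ, hβ'⟩ := Submodule.exists_le_ker_of_notMem h1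
  have h2 : ∀ w ∈ W, β w = 0 := fun w hw => hβ' (Submodule.mem_sup_left hw)
  have h3 : β (u + u') = 0 :=
    hβ' (Submodule.mem_sup_right (Submodule.mem_span_singleton_self _))
  have h4 : β u = 1 := z2_ne hβ
  refine ⟨β, h2, h4, ?_⟩
  rw [map_add, h4] at h3
  revert h3
  generalize β u' = a
  revert a
  decide

/-- A transvection that fixes `W` pointwise and maps `u` to `u'`. -/
theorem exists_map (W : Submodule (ZMod 2) V) {u u' : V} (hu : u ∉ W) (hu' : u' ∉ W) :
    ∃ g : V ≃ₗ[ZMod 2] V, (∀ w ∈ W, g w = w) ∧ g u = u' := by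
  obtain ⟨β, h1, h2, h3⟩ := exists_fun W hu hu'
  have h4 : β (u + u') = 0 := by rw [map_add, h2, h3]; decide
  refine ⟨tv (u + u') β, fun w hw => tv_fix h4 (h1 w hw), ?_⟩
  rw [tv_move h4 h2, ← add_assoc, vv, zero_add]

end H54.UPM.Idx
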