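import Pool.Agent.H54.UPM.Idx.Basic

/-!
# Counting fixed points of transvections
-/

namespace H54.UPM.Idx

open Module

variable {V : Type} [AddCommGroup V] [Module (ZMod 2) V]
variable {X : Type} [MulAction (V ≃ₗ[ZMod 2] V) X]

/-- The functionals `φ` with `φ v = 0` whose transvection fixes `x`. -/
def T (v : V) (x : X) : Submodule (ZMod 2) (Dual (ZMod 2) V) where
  carrier := {φ | φ v = 0 ∧ tv v φ • x = x}
  add_mem' := by
    rintro φ ψ ⟨h1, h2⟩ ⟨h3, h4⟩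
    refine ⟨by simp [h1, h3], ?_⟩
    rw [← tv_add h1 h3, mul_smul, h4, h2]
  zero_mem' := ⟨rfl, by rw [tv_zero, one_smul]⟩
  smul_mem' := by
    intro c φ h
    rcases z2 c with rfl | rfl
    · rw [zero_smul]
      exact ⟨rfl, by rw [tv_zero, one_smul]⟩
    · rw [one_smul]; exact h

theorem mem_T {v : V} {x : X} {φ : Dual (ZMod 2) V} : φ ∈ T v x ↔ φ v = 0 ∧ tv v φ • x = x :=
  Iff.rfl

theorem T_smul (g : V ≃ₗ[ZMod 2] V) (v : V) (x : X) (φ : Dual (ZMod 2) V) :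
    φ.comp (g⁻¹ : V ≃ₗ[ZMod 2] V).toLinearMap ∈ T (g v) (g • x) ↔ φ ∈ T v x := by
  rw [mem_T, mem_T, ← tv_conj, mul_smul, mul_smul, inv_smul_smul, smul_left_cancel_iff]
  have hg : (g⁻¹ : V ≃ₗ[ZMod 2] V) (g v) = v := by
    rw [← LinearEquiv.mul_apply, inv_mul_cancel]; rfl
  simp only [LinearMap.comp_apply, LinearEquiv.coe_coe, hg]

/-- `T` is constant on the orbit of the transvections with the same centre. -/
theorem T_orbit {v : V} {φ : Dual (ZMod 2) V} (hφ : φ v = 0) (x : X) :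
    T v (tv v φ • x) = T v x := by
  ext ψ
  rw [mem_T, mem_T]
  refine and_congr_right fun hψ => ?_
  rw [← mul_smul, tv_add hψ hφ, add_comm, ← tv_add hφ hψ, mul_smul, smul_left_cancel_iff]

/-- The condition `T v x ⊆ Λ_u`. -/
def A (v u : V) (x : X) : Prop := ∀ φ ∈ T v x, φ u = 0

theorem A_smul (g : V ≃ₗ[ZMod 2] V) {v u : V} {x : X} (h : A v u x) :
    A (g v) (g u) (g • x) := by
  intro ψ hψ
  have h1 : ψ = (ψ.comp g.toLinearMap).comp (g⁻¹ : V ≃ₗ[ZMod 2] V).toLinearMap := by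
    ext y
    simp only [LinearMap.comp_apply, LinearEquiv.coe_coe]
    rw [← LinearEquiv.mul_apply, mul_inv_cancel]; rfl
  rw [h1, T_smul] at hψ
  exact h _ hψ

theorem A_orbit {v u : V} {φ : Dual (ZMod 2) V} (hφ : φ v = 0) {x : X} (h : A v u x) :
    A v u (tv v φ • x) := by
  intro ψ hψ
  rw [T_orbit hφ] at hψ
  exact h ψ hψ

/-- All transvections are conjugate. -/
theorem conj_all {v v' : V} {φ φ' : Dual (ZMod 2) V} (hv : v ≠ 0) (hv' : v' ≠ 0) (hφ : φ ≠ 0)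
    (hφ' : φ' ≠ 0) (h : φ v = 0) (h' : φ' v' = 0) :
    ∃ g : V ≃ₗ[ZMod 2] V, g * tv v φ * g⁻¹ = tv v' φ' := by
  -- map `v` to `v'`
  obtain ⟨g1, -, hg1⟩ := exists_map (⊥ : Submodule (ZMod 2) V) (u := v) (u' := v')
    (by simpa using hv) (by simpa using hv')
  set φ1 : Dual (ZMod 2) V := φ.comp (g1⁻¹ : V ≃ₗ[ZMod 2] V).toLinearMap with hφ1
  have h1 : φ1 v' = 0 := by
    rw [hφ1, ← hg1]
    simp only [LinearMap.comp_apply, LinearEquiv.coe_coe]
    rw [← LinearEquiv.mul_apply, inv_mul_cancel]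
    exact h
  have h2 : φ1 ≠ 0 := by
    intro h0
    apply hφ
    ext y
    have := congrArg (fun f : Dual (ZMod 2) V => f (g1 y)) h0
    simp only [hφ1, LinearMap.comp_apply, LinearEquiv.coe_coe] at this
    rw [← LinearEquiv.mul_apply, inv_mul_cancel] at this
    exact this
  -- a vector on which both functionals are `1`
  obtain ⟨a, ha, ha'⟩ : ∃ a, φ1 a = 1 ∧ φ' a = 1 := by
    obtain ⟨a1, ha1⟩ : ∃ a, φ1 a = 1 := by
      by_contra hcon
      push Not at hcon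
      exact h2 (LinearMap.ext fun y => z2_ne' (hcon y))
    obtain ⟨a2, ha2⟩ : ∃ a, φ' a = 1 := by
      by_contra hcon
      push Not at hcon
      exact hφ' (LinearMap.ext fun y => z2_ne' (hcon y))
    rcases z2 (φ' a1) with h3 | h3
    · rcases z2 (φ1 a2) with h4 | h4
      · exact ⟨a1 + a2, by simp [ha1, h4], by simp [h3, ha2]⟩
      · exact ⟨a2, h4, ha2⟩
    · exact ⟨a1, ha1, h3⟩
  have hβa : (φ1 + φ') a = 0 := by
    rw [LinearMap.add_apply, ha, ha']; decide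
  have hβv : (φ1 + φ') v' = 0 := by
    rw [LinearMap.add_apply, h1, h']; decide
  refine ⟨tv a (φ1 + φ') * g1, ?_⟩
  have e1 : tv a (φ1 + φ') * g1 * tv v φ * (tv a (φ1 + φ') * g1)⁻¹ =
      tv a (φ1 + φ') * (g1 * tv v φ * g1⁻¹) * (tv a (φ1 + φ'))⁻¹ := by
    rw [mul_inv_rev]; simp only [mul_assoc]
  rw [e1, tv_conj, ← hφ1, hg1, tv_conj, tv_fix hβa hβv]
  congr 1
  ext y
  simp only [LinearMap.comp_apply, LinearEquiv.coe_coe, tv_inv]
  rw [tv_apply hβa, map_add, map_smul, ha, LinearMap.add_apply, smul_eq_mul, mul_one,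
    ← add_assoc, CharTwo.add_self_eq_zero, zero_add]

section
variable [Fintype X]

/-- The number of fixed points. -/
noncomputable def fix (g : V ≃ₗ[ZMod 2] V) : ℕ := Nat.card {x : X // g • x = x}

theorem fix_conj {g h c : V ≃ₗ[ZMod 2] V} (hc : c * g * c⁻¹ = h) :
    fix (X := X) g = fix (X := X) h := by
  apply Nat.card_congr
  refine ⟨fun x => ⟨c • x.1, ?_⟩, fun x => ⟨c⁻¹ • x.1, ?_⟩, ?_, ?_⟩
  · rw [← hc, mul_smul, mul_smul, inv_smul_smul, x.2]
  · have h1 : g = c⁻¹ * h * c := by rw [← hc]; group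
    rw [h1, mul_smul, mul_smul, smul_inv_smul, x.2]
  · intro x; simp
  · intro x; simp

theorem fix_eq {v v' : V} {φ φ' : Dual (ZMod 2) V} (hv : v ≠ 0) (hv' : v' ≠ 0) (hφ : φ ≠ 0)
    (hφ' : φ' ≠ 0) (h : φ v = 0) (h' : φ' v' = 0) :
    fix (X := X) (tv v φ) = fix (X := X) (tv v' φ') := by
  obtain ⟨c, hc⟩ := conj_all hv hv' hφ hφ' h h'
  exact fix_conj hc

end

end H54.UPM.Idx
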