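import Pool.Agent.H54.UPM.Idx.Single

/-!
# The dichotomy
-/

namespace H54.UPM.Idx

open Module

variable {V : Type} [AddCommGroup V] [Module (ZMod 2) V]

theorem mem_span1 {v x : V} : x ∈ Submodule.span (ZMod 2) {v} ↔ x = 0 ∨ x = v := by
  rw [Submodule.mem_span_singleton]
  constructor
  · rintro ⟨a, rfl⟩
    rcases z2 a with rfl | rfl
    · left; rw [zero_smul]
    · right; rw [one_smul]
  · rintro (rfl | rfl)
    · exact ⟨0, zero_smul _ _⟩
    · exact ⟨1, one_smul _ _⟩

theorem mem_span2 {v u x : V} :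
    x ∈ Submodule.span (ZMod 2) {v, u} ↔ x = 0 ∨ x = v ∨ x = u ∨ x = v + u := by
  rw [Submodule.mem_span_pair]
  constructor
  · rintro ⟨a, b, rfl⟩
    rcases z2 a with rfl | rfl <;> rcases z2 b with rfl | rfl <;> simp
  · rintro (rfl | rfl | rfl | rfl)
    · exact ⟨0, 0, by simp⟩
    · exact ⟨1, 0, by simp⟩
    · exact ⟨0, 1, by simp⟩
    · exact ⟨1, 1, by simp⟩

/-- Three linearly independent vectors. -/
def Ind3 (v u w : V) : Prop :=
  v ≠ 0 ∧ u ≠ 0 ∧ u ≠ v ∧ w ≠ 0 ∧ w ≠ v ∧ w ≠ u ∧ w ≠ v + u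

theorem Ind3.map {v u w : V} (h : Ind3 v u w) (g : V ≃ₗ[ZMod 2] V) :
    Ind3 (g v) (g u) (g w) := by
  obtain ⟨h1, h2, h3, h4, h5, h6, h7⟩ := h
  refine ⟨?_, ?_, ?_, ?_, ?_, ?_, ?_⟩
  · simpa using h1
  · simpa using h2
  · simpa using h3
  · simpa using h4
  · simpa using h5
  · simpa using h6
  · rw [← map_add]; simpa only [ne_eq, EmbeddingLike.apply_eq_iff_eq] using h7

theorem trans1 {v v' : V} (hv : v ≠ 0) (hv' : v' ≠ 0) : ∃ g : V ≃ₗ[ZMod 2] V, g v = v' := by
  obtain ⟨g, -, hg⟩ := exists_map (⊥ : Submodule (ZMod 2) V) (u := v) (u' := v')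
    (by simpa using hv) (by simpa using hv')
  exact ⟨g, hg⟩

theorem trans2 {v u v' u' : V} (hv : v ≠ 0) (hu : u ≠ 0) (huv : u ≠ v) (hv' : v' ≠ 0)
    (hu' : u' ≠ 0) (huv' : u' ≠ v') : ∃ g : V ≃ₗ[ZMod 2] V, g v = v' ∧ g u = u' := by
  obtain ⟨g, hg⟩ := trans1 hv hv'
  obtain ⟨g2, h1, h2⟩ := exists_map (Submodule.span (ZMod 2) {v'}) (u := g u) (u' := u')
    (by
      rw [mem_span1, ← hg]
      push Not
      exact ⟨by simpa using hu, by simpa using huv⟩)
    (by rw [mem_span1]; push Not; exact ⟨hu', huv'⟩)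
  refine ⟨g2 * g, ?_, ?_⟩
  · rw [LinearEquiv.mul_apply, hg]
    exact h1 _ (Submodule.mem_span_singleton_self _)
  · rw [LinearEquiv.mul_apply, h2]

theorem trans3 {v u w v' u' w' : V} (h : Ind3 v u w) (h' : Ind3 v' u' w') :
    ∃ g : V ≃ₗ[ZMod 2] V, g v = v' ∧ g u = u' ∧ g w = w' := by
  obtain ⟨g, hg1, hg2⟩ := trans2 h.1 h.2.1 h.2.2.1 h'.1 h'.2.1 h'.2.2.1
  have h2 := h.map g
  rw [hg1, hg2] at h2
  obtain ⟨g2, h3, h4⟩ := exists_map (Submodule.span (ZMod 2) {v', u'}) (u := g w) (u' := w')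
    (by rw [mem_span2]; push Not; exact ⟨h2.2.2.2.1, h2.2.2.2.2.1, h2.2.2.2.2.2.1, h2.2.2.2.2.2.2⟩)
    (by rw [mem_span2]; push Not; exact ⟨h'.2.2.2.1, h'.2.2.2.2.1, h'.2.2.2.2.2.1, h'.2.2.2.2.2.2⟩)
  refine ⟨g2 * g, ?_, ?_, ?_⟩
  · rw [LinearEquiv.mul_apply, hg1]
    exact h3 _ (Submodule.subset_span (by simp))
  · rw [LinearEquiv.mul_apply, hg2]
    exact h3 _ (Submodule.subset_span (by simp))
  · rw [LinearEquiv.mul_apply, h4]

variable {X : Type} [MulAction (V ≃ₗ[ZMod 2] V) X]

theorem T_le_perp (v : V) (x : X) : T v x ≤ perp v := fun _ h => h.1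

theorem A_iff {v u : V} {x : X} : A v u x ↔ u ∈ (T v x).dualCoannihilator := by
  rw [Submodule.mem_dualCoannihilator]
  exact Iff.rfl

theorem exists_A_of_ne [Finite V] {v : V} {x : X} (h : T v x ≠ perp v) :
    ∃ u : V, u ≠ 0 ∧ u ≠ v ∧ A v u x := by
  by_contra hcon
  push Not at hcon
  apply h
  apply le_antisymm (T_le_perp v x)
  have : Finite (Dual (ZMod 2) V) := finite_dual
  have h1 : (T v x).dualCoannihilator.dualAnnihilator = T v x :=
    Subspace.dualCoannihilator_dualAnnihilator_eq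
  rw [← h1]
  intro φ hφ
  rw [Submodule.mem_dualAnnihilator]
  intro u hu
  rw [← A_iff] at hu
  by_cases h0 : u = 0
  · rw [h0, map_zero]
  · by_cases hv : u = v
    · rw [hv]; exact hφ
    · exact absurd hu (hcon u h0 hv)

theorem A_add {v u : V} {x : X} (h : A v u x) : A v (v + u) x := by
  intro φ hφ
  rw [map_add, hφ.1, h φ hφ, add_zero]

variable [Fintype X]

/-- The hypotheses of the whole argument. -/
structure Hyp (V X : Type) [AddCommGroup V] [Module (ZMod 2) V] [MulAction (V ≃ₗ[ZMod 2] V) X]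
    [Fintype X] : Prop where
  finV : Finite V
  small : Fintype.card X + 2 ≤ Nat.card V
  move : ∃ (v : V) (φ : Dual (ZMod 2) V) (x : X), v ≠ 0 ∧ φ ≠ 0 ∧ φ v = 0 ∧ tv v φ • x ≠ x

namespace Hyp

variable (H : Hyp V X)
include H

theorem fix_lt {v : V} {φ : Dual (ZMod 2) V} (hv : v ≠ 0) (hφ : φ ≠ 0) (h : φ v = 0) :
    fix (X := X) (tv v φ) < Fintype.card X := by
  classical
  obtain ⟨v0, φ0, x0, h1, h2, h3, h4⟩ := H.move
  rw [fix_eq (X := X) hv h1 hφ h2 h h3, fix, Nat.card_eq_fintype_card]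
  exact Fintype.card_subtype_lt (x := x0) h4

theorem exists_ne (v : V) : ∃ φ : Dual (ZMod 2) V, φ ≠ 0 ∧ φ v = 0 := by
  obtain ⟨v0, φ0, x0, h1, h2, h3, h4⟩ := H.move
  by_cases hv : v = 0
  · exact ⟨φ0, h2, by rw [hv, map_zero]⟩
  · obtain ⟨g, hg⟩ := trans1 hv h1
    refine ⟨φ0.comp g.toLinearMap, ?_, ?_⟩
    · intro h
      apply h2
      ext y
      have := congrArg (fun f : Dual (ZMod 2) V => f ((g⁻¹ : V ≃ₗ[ZMod 2] V) y)) h
      simp only [LinearMap.comp_apply, LinearEquiv.coe_coe] at this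
      rw [← LinearEquiv.mul_apply, mul_inv_cancel] at this
      exact this
    · simp only [LinearMap.comp_apply, LinearEquiv.coe_coe, hg, h3]

theorem nonempty {v u : V} (hv : v ≠ 0) (hu : u ≠ 0) (huv : u ≠ v) : ∃ x : X, A v u x := by
  have := H.finV
  obtain ⟨φ, h1, h2⟩ := H.exists_ne v
  exact A_nonempty hv hu huv h1 h2 (H.fix_lt hv h1 h2)

theorem single {v u : V} (hv : v ≠ 0) (hu : u ≠ 0) (huv : u ≠ v) {x x' : X} (hx : A v u x)
    (hx' : A v u x') : ∃ φ : Dual (ZMod 2) V, φ v = 0 ∧ tv v φ • x = x' := by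
  have := H.finV
  obtain ⟨φ, h1, h2⟩ := H.exists_ne v
  have h3 := H.small
  exact A_single hv hu huv h1 h2 (by omega) hx hx'

theorem T_eq {v u : V} (hv : v ≠ 0) (hu : u ≠ 0) (huv : u ≠ v) {x x' : X} (hx : A v u x)
    (hx' : A v u x') : T v x' = T v x := by
  obtain ⟨φ, h1, h2⟩ := H.single hv hu huv hx hx'
  rw [← h2, T_orbit h1]

/-- The dichotomy. -/
theorem dich : (∀ v u w : V, Ind3 v u w → ∃ x : X, A v u x ∧ A v w x) ∨
    (∀ v u w : V, Ind3 v u w → ∀ x : X, A v u x → ¬ A v w x) := by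
  by_cases h : ∃ v u w : V, Ind3 v u w ∧ ∃ x : X, A v u x ∧ A v w x
  · left
    obtain ⟨v, u, w, h1, x, h2, h3⟩ := h
    intro v' u' w' h'
    obtain ⟨g, g1, g2, g3⟩ := trans3 h1 h'
    refine ⟨g • x, ?_, ?_⟩
    · rw [← g1, ← g2]; exact A_smul g h2
    · rw [← g1, ← g3]; exact A_smul g h3
  · right
    push Not at h
    exact h

/-- First case: the groups of transvections with a given centre have only one nontrivial orbit,
which is regular. -/
theorem caseA (h : ∀ v u w : V, Ind3 v u w → ∃ x : X, A v u x ∧ A v w x) {v : V} (hv : v ≠ 0)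
    (x : X) : T v x = ⊥ ∨ T v x = perp v := by
  have := H.finV
  by_cases hne : T v x = perp v
  · right; exact hne
  · left
    obtain ⟨u, hu, huv, hA⟩ := exists_A_of_ne hne
    rw [eq_bot_iff]
    intro φ hφ
    rw [Submodule.mem_bot]
    ext w
    rw [LinearMap.zero_apply]
    by_cases hI : Ind3 v u w
    · obtain ⟨y, h1, h2⟩ := h v u w hI
      have h3 := H.T_eq hv hu huv hA h1
      have h4 : φ ∈ T v y := by rw [h3]; exact hφ
      exact h2 φ h4
    · have h5 : w = 0 ∨ w = v ∨ w = u ∨ w = v + u := by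
        by_contra hcon
        push Not at hcon
        exact hI ⟨hv, hu, huv, hcon.1, hcon.2.1, hcon.2.2.1, hcon.2.2.2⟩
      rcases h5 with rfl | rfl | rfl | rfl
      · rw [map_zero]
      · exact hφ.1
      · exact hA φ hφ
      · exact A_add hA φ hφ

/-- Second case: no point is fixed by all transvections with a given centre. -/
theorem caseB (h : ∀ v u w : V, Ind3 v u w → ∀ x : X, A v u x → ¬ A v w x) {v : V} (hv : v ≠ 0)
    (x : X) : T v x ≠ perp v := by
  classical
  have := H.finV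
  have : Fintype V := Fintype.ofFinite _
  intro hx
  set S : Finset V := Finset.univ.filter fun u => u ≠ 0 ∧ u ≠ v with hS
  have hScard : S.card + 2 = Fintype.card V := by
    have h1 : S = (Finset.univ.erase 0).erase v := by
      ext u
      simp only [hS, Finset.mem_filter, Finset.mem_univ, true_and, Finset.mem_erase, and_true]
      tauto
    rw [h1, Finset.card_erase_of_mem (by simp [hv]), Finset.card_erase_of_mem (Finset.mem_univ _),
      Finset.card_univ]
    have h2 : 1 < Fintype.card V := Fintype.one_lt_card_iff.2 ⟨v, 0, hv⟩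
    omega
  -- every set has at least two elements
  have h2 : ∀ u ∈ S, 2 ≤ (Finset.univ.filter fun y : X => A v u y).card := by
    intro u hu
    rw [hS, Finset.mem_filter] at hu
    obtain ⟨y, hy⟩ := H.nonempty hv hu.2.1 hu.2.2
    have hu' : u ∉ Submodule.span (ZMod 2) {v} := by
      rw [mem_span1]; push Not; exact hu.2
    obtain ⟨β, b1, b2, -⟩ := exists_fun _ hu' hu'
    have b3 : β v = 0 := b1 v (Submodule.mem_span_singleton_self v)
    have hne : y ≠ tv v β • y := by
      intro hcon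
      have := hy β ⟨b3, hcon.symm⟩
      rw [b2] at this
      exact one_ne_zero this
    calc 2 = ({y, tv v β • y} : Finset X).card := (Finset.card_pair hne).symm
      _ ≤ _ := Finset.card_le_card (by
        intro z hz
        rw [Finset.mem_insert, Finset.mem_singleton] at hz
        rw [Finset.mem_filter]
        refine ⟨Finset.mem_univ _, ?_⟩
        rcases hz with rfl | rfl
        · exact hy
        · exact A_orbit b3 hy)
  -- every point lies in at most two sets, and `x` in none
  have h3 : ∀ y : X, (S.filter fun u => A v u y).card ≤ if y = x then 0 else 2 := by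
    intro y
    by_cases hyx : y = x
    · rw [if_pos hyx, hyx, Nat.le_zero, Finset.card_eq_zero, Finset.filter_eq_empty_iff]
      intro u hu hA
      rw [hS, Finset.mem_filter] at hu
      have hu' : u ∉ Submodule.span (ZMod 2) {v} := by
        rw [mem_span1]; push Not; exact hu.2
      obtain ⟨β, b1, b2, -⟩ := exists_fun _ hu' hu'
      have b3 : β v = 0 := b1 v (Submodule.mem_span_singleton_self v)
      have b4 : β ∈ T v x := by rw [hx]; exact b3
      have := hA β b4
      rw [b2] at this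
      exact one_ne_zero this
    · rw [if_neg hyx]
      by_cases hemp : (S.filter fun u => A v u y) = ∅
      · rw [hemp]; simp
      · obtain ⟨u, hu⟩ := Finset.nonempty_iff_ne_empty.2 hemp
        rw [Finset.mem_filter, hS, Finset.mem_filter] at hu
        calc (S.filter fun u => A v u y).card ≤ ({u, v + u} : Finset V).card := by
              apply Finset.card_le_card
              intro w hw
              rw [Finset.mem_filter, hS, Finset.mem_filter] at hw
              rw [Finset.mem_insert, Finset.mem_singleton]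
              by_contra hcon
              push Not at hcon
              exact h v u w ⟨hv, hu.1.2.1, hu.1.2.2, hw.1.2.1, hw.1.2.2, hcon.1, hcon.2⟩ y hu.2
                hw.2
          _ ≤ 2 := Finset.card_le_two
  have h4 : ∑ u ∈ S, (Finset.univ.filter fun y : X => A v u y).card =
      ∑ y : X, (S.filter fun u => A v u y).card := by
    simp only [Finset.card_filter]
    exact Finset.sum_comm
  have h5 : 2 * S.card ≤ ∑ u ∈ S, (Finset.univ.filter fun y : X => A v u y).card := by
    rw [mul_comm, ← smul_eq_mul]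
    exact Finset.card_nsmul_le_sum _ _ _ h2
  have h6 : ∑ y : X, (S.filter fun u => A v u y).card ≤ 2 * (Fintype.card X - 1) := by
    calc ∑ y : X, (S.filter fun u => A v u y).card ≤ ∑ y : X, if y = x then 0 else 2 :=
          Finset.sum_le_sum fun y _ => h3 y
      _ = ∑ y ∈ Finset.univ.erase x, 2 := by
          rw [← Finset.add_sum_erase _ _ (Finset.mem_univ x), if_pos rfl, zero_add]
          exact Finset.sum_congr rfl fun y hy => if_neg (Finset.ne_of_mem_erase hy)
      _ = 2 * (Fintype.card X - 1) := by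
          rw [Finset.sum_const, Finset.card_erase_of_mem (Finset.mem_univ _), Finset.card_univ,
            smul_eq_mul, mul_comm]
  have h7 := H.small
  rw [Nat.card_eq_fintype_card] at h7
  have h8 : 0 < Fintype.card X := Fintype.card_pos_iff.2 ⟨x⟩
  omega

end Hyp

end H54.UPM.Idx
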