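import Pool.Agent.H54.UPM.Idx.Dich

/-!
# First case: no point is fixed by all transvections with a given centre (Fisher's inequality)
-/

namespace H54.UPM.Idx

open Module

/-- Fisher's inequality. -/
theorem fisher {ι X : Type} [Fintype ι] [Fintype X] [DecidableEq ι] (F : ι → X → Prop)
    (a l : ℕ) (hla : l < a) (h1 : ∀ i, Nat.card {x // F i x} = a)
    (h2 : ∀ i j, i ≠ j → Nat.card {x // F i x ∧ F j x} = l) :
    Fintype.card ι ≤ Fintype.card X := by
  classical
  have hli : LinearIndependent ℚ (fun i : ι => fun x : X => if F i x then (1 : ℚ) else 0) := by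
    rw [Fintype.linearIndependent_iff]
    intro c hc
    have h3 : ∀ i j, (∑ x : X, (if F i x then (1 : ℚ) else 0) * (if F j x then (1 : ℚ) else 0)) =
        l + if i = j then ((a : ℚ) - l) else 0 := by
      intro i j
      have e : ∀ x : X, (if F i x then (1 : ℚ) else 0) * (if F j x then (1 : ℚ) else 0) =
          if F i x ∧ F j x then 1 else 0 := by
        intro x
        by_cases hi : F i x <;> by_cases hj : F j x <;> simp [hi, hj]
      rw [Finset.sum_congr rfl (fun x _ => e x), Finset.sum_boole]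
      have e2 : (Finset.univ.filter fun x : X => F i x ∧ F j x).card =
          Nat.card {x // F i x ∧ F j x} := (Nat.subtype_card _ (fun x => by simp)).symm
      rw [e2]
      by_cases hij : i = j
      · subst hij
        have e3 : Nat.card {x // F i x ∧ F i x} = a := by
          rw [← h1 i]
          simp only [and_self]
        rw [e3, if_pos rfl]
        ring
      · rw [h2 i j hij, if_neg hij, add_zero]
    have h4 : ∑ x : X, (∑ i, c i * (if F i x then (1 : ℚ) else 0)) ^ 2 = 0 := by
      apply Finset.sum_eq_zero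
      intro x _
      have := congrFun hc x
      simp only [Finset.sum_apply, Pi.smul_apply, smul_eq_mul, Pi.zero_apply] at this
      rw [this]
      norm_num
    have h5 : ∑ x : X, (∑ i, c i * (if F i x then (1 : ℚ) else 0)) ^ 2 =
        l * (∑ i, c i) ^ 2 + ((a : ℚ) - l) * ∑ i, c i ^ 2 := by
      have e : ∀ x : X, (∑ i, c i * (if F i x then (1 : ℚ) else 0)) ^ 2 =
          ∑ i, ∑ j, c i * c j *
            ((if F i x then (1 : ℚ) else 0) * (if F j x then (1 : ℚ) else 0)) := by
        intro x
        rw [sq, Finset.sum_mul_sum]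
        exact Finset.sum_congr rfl fun i _ => Finset.sum_congr rfl fun j _ => by ring
      rw [Finset.sum_congr rfl (fun x _ => e x), Finset.sum_comm]
      have e2 : ∀ i, ∑ x : X, ∑ j, c i * c j *
            ((if F i x then (1 : ℚ) else 0) * (if F j x then (1 : ℚ) else 0)) =
          c i * (l * ∑ j, c j) + c i * (c i * ((a : ℚ) - l)) := by
        intro i
        rw [Finset.sum_comm]
        have e3 : ∀ j, ∑ x : X, c i * c j *
            ((if F i x then (1 : ℚ) else 0) * (if F j x then (1 : ℚ) else 0)) =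
            c i * (l * c j) + c i * (if i = j then c j * ((a : ℚ) - l) else 0) := by
          intro j
          rw [← Finset.mul_sum, h3 i j]
          by_cases hij : i = j
          · rw [if_pos hij, if_pos hij]; ring
          · rw [if_neg hij, if_neg hij]; ring
        rw [Finset.sum_congr rfl (fun j _ => e3 j), Finset.sum_add_distrib, ← Finset.mul_sum,
          ← Finset.mul_sum, ← Finset.mul_sum, Finset.sum_ite_eq, if_pos (Finset.mem_univ _)]
      rw [Finset.sum_congr rfl (fun i _ => e2 i), Finset.sum_add_distrib, ← Finset.sum_mul]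
      have e4 : ∀ i, c i * (c i * ((a : ℚ) - l)) = ((a : ℚ) - l) * c i ^ 2 := fun i => by ring
      rw [Finset.sum_congr rfl (fun i _ => e4 i), ← Finset.mul_sum]
      ring
    rw [h5] at h4
    have hpos : (0 : ℚ) < (a : ℚ) - l := by
      have : (l : ℚ) < a := by exact_mod_cast hla
      linarith
    have hl : (0 : ℚ) ≤ l := by positivity
    have h6 : ∑ i, c i ^ 2 = 0 := by
      have h7 : 0 ≤ ∑ i, c i ^ 2 := Finset.sum_nonneg fun i _ => sq_nonneg _
      have h8 : 0 ≤ (l : ℚ) * (∑ i, c i) ^ 2 := mul_nonneg hl (sq_nonneg _)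
      have h9 : ((a : ℚ) - l) * ∑ i, c i ^ 2 = 0 := by
        have := mul_nonneg hpos.le h7
        linarith
      rcases mul_eq_zero.1 h9 with h | h
      · linarith
      · exact h
    intro i
    have := (Finset.sum_eq_zero_iff_of_nonneg (fun i _ => sq_nonneg (c i))).1 h6 i
      (Finset.mem_univ _)
    exact pow_eq_zero_iff (by norm_num) |>.1 this
  have := hli.fintype_card_le_finrank
  rwa [Module.finrank_fintype_fun_eq_card] at this

variable {V : Type} [AddCommGroup V] [Module (ZMod 2) V]
variable {X : Type} [MulAction (V ≃ₗ[ZMod 2] V) X]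

/-- The point `x` is fixed by all transvections with centre `v`. -/
def Fx (v : V) (x : X) : Prop := ∀ φ : Dual (ZMod 2) V, φ v = 0 → tv v φ • x = x

theorem Fx_smul (g : V ≃ₗ[ZMod 2] V) {v : V} {x : X} (h : Fx v x) : Fx (g v) (g • x) := by
  intro φ hφ
  have h1 : (φ.comp g.toLinearMap) ∈ T v x := ⟨hφ, h _ hφ⟩
  rw [← T_smul g] at h1
  have h2 : (φ.comp g.toLinearMap).comp (g⁻¹ : V ≃ₗ[ZMod 2] V).toLinearMap = φ := by
    ext y
    simp only [LinearMap.comp_apply, LinearEquiv.coe_coe]
    rw [← LinearEquiv.mul_apply, mul_inv_cancel]; rfl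
  rw [h2] at h1
  exact h1.2

theorem Fx_smul_iff (g : V ≃ₗ[ZMod 2] V) {v : V} {x : X} : Fx (g v) (g • x) ↔ Fx v x := by
  constructor
  · intro h
    have h1 := Fx_smul (g⁻¹ : V ≃ₗ[ZMod 2] V) h
    rw [inv_smul_smul] at h1
    have h2 : (g⁻¹ : V ≃ₗ[ZMod 2] V) (g v) = v := by
      rw [← LinearEquiv.mul_apply, inv_mul_cancel]; rfl
    rwa [h2] at h1
  · exact Fx_smul g

variable [Fintype X]

namespace Hyp

variable (H : Hyp V X)
include H

theorem no_fixed [MulAction.IsPretransitive (V ≃ₗ[ZMod 2] V) X] {v : V} (hv : v ≠ 0) (x : X) :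
    ¬ Fx v x := by
  classical
  have := H.finV
  have : Fintype V := Fintype.ofFinite _
  intro hx
  -- pairs
  have hcard2 : ∀ g : V ≃ₗ[ZMod 2] V, ∀ v w : V,
      Nat.card {x : X // Fx v x ∧ Fx w x} = Nat.card {x : X // Fx (g v) x ∧ Fx (g w) x} := by
    intro g v w
    apply Nat.card_congr
    refine ⟨fun y => ⟨g • y.1, ?_⟩, fun y => ⟨g⁻¹ • y.1, ?_⟩, ?_, ?_⟩
    · exact ⟨(Fx_smul_iff g).2 y.2.1, (Fx_smul_iff g).2 y.2.2⟩
    · have h1 := y.2.1
      have h2 := y.2.2
      rw [← smul_inv_smul g y.1, Fx_smul_iff] at h1 h2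
      exact ⟨h1, h2⟩
    · intro y; simp
    · intro y; simp
  -- every nonzero vector fixes some point
  have hex : ∀ w : V, w ≠ 0 → ∃ y : X, Fx w y := by
    intro w hw
    obtain ⟨g, hg⟩ := trans1 hv hw
    exact ⟨g • x, by rw [← hg]; exact Fx_smul g hx⟩
  -- a second vector
  obtain ⟨w, hw, hwv, hwx⟩ : ∃ w : V, w ≠ 0 ∧ w ≠ v ∧ ∃ y : X, Fx v y ∧ ¬ Fx w y := by
    by_contra hcon
    push Not at hcon
    -- all sets are equal
    have hsub : ∀ w : V, w ≠ 0 → ∀ y : X, Fx v y → Fx w y := by
      intro w hw y hy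
      by_cases hwv : w = v
      · rw [hwv]; exact hy
      · exact hcon w hw hwv y hy
    have hall : ∀ w w' : V, w ≠ 0 → w' ≠ 0 → ∀ y : X, Fx w y → Fx w' y := by
      intro w w' hw hw' y hy
      obtain ⟨g, hg⟩ := trans1 hw hv
      have h1 : Fx v (g • y) := by rw [← hg]; exact Fx_smul g hy
      have h2 : Fx (g w') (g • y) := hsub _ (by simpa using hw') _ h1
      rwa [Fx_smul_iff] at h2
    obtain ⟨v0, φ0, x0, h1, h2, h3, h4⟩ := H.move
    apply h4
    obtain ⟨g, hg⟩ := MulAction.exists_smul_eq (V ≃ₗ[ZMod 2] V) x x0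
    have h5 : Fx (g v) x0 := by rw [← hg]; exact Fx_smul g hx
    exact hall (g v) v0 (by simpa using hv) h1 x0 h5 φ0 h3
  set a := Nat.card {x : X // Fx v x} with ha
  set l := Nat.card {x : X // Fx v x ∧ Fx w x} with hl
  have hla : l < a := by
    obtain ⟨y, hy1, hy2⟩ := hwx
    rw [hl, ha, Nat.card_eq_fintype_card, Nat.card_eq_fintype_card]
    rw [Fintype.card_subtype, Fintype.card_subtype]
    apply Finset.card_lt_card
    rw [Finset.ssubset_iff_of_subset (by
      intro z hz
      rw [Finset.mem_filter] at hz ⊢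
      exact ⟨hz.1, hz.2.1⟩)]
    exact ⟨y, by simp [hy1], by simp [hy2]⟩
  have hcount := fisher (ι := {v : V // v ≠ 0}) (X := X) (fun v x => Fx v.1 x) a l hla
    (by
      intro i
      obtain ⟨g, hg⟩ := trans1 hv i.2
      have h1 := hcard2 g v v
      simp only [and_self, hg] at h1
      rw [ha, h1])
    (by
      intro i j hij
      obtain ⟨g, hg1, hg2⟩ := trans2 hv hw hwv i.2 j.2 (fun h => hij (Subtype.ext h.symm))
      have h1 := hcard2 g v w
      rw [hg1, hg2] at h1
      rw [hl, h1])
  rw [Fintype.card_subtype_compl, Fintype.card_subtype_eq] at hcount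
  have := H.small
  rw [Nat.card_eq_fintype_card] at this
  omega

end Hyp

end H54.UPM.Idx
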