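import Pool.Agent.H54.UPM.Idx.Regular
import Pool.Agent.H54.UPM.GL

/-!
# Proper subgroups of `GL_n(F_2)`, `n ≥ 5`, have index at least `2^n - 1`
-/

namespace H54.UPM

open Matrix Module

/-- The general linear group as a group of linear equivalences. -/
noncomputable def eGL (n : ℕ) :
    ((Fin n → ZMod 2) ≃ₗ[ZMod 2] (Fin n → ZMod 2)) ≃* GL (Fin n) (ZMod 2) :=
  (LinearMap.GeneralLinearGroup.generalLinearEquiv (ZMod 2) (Fin n → ZMod 2)).symm.trans
    Matrix.GeneralLinearGroup.toLin.symm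

theorem eGL_symm_apply {n : ℕ} (g : GL (Fin n) (ZMod 2)) (y : Fin n → ZMod 2) :
    (eGL n).symm g y = g.1 *ᵥ y := by
  show (Matrix.GeneralLinearGroup.toLin g).1 y = _
  rw [Matrix.GeneralLinearGroup.coe_toLin]; rfl

theorem eGL_tv {n : ℕ} {x u : Fin n → ZMod 2} (h : u ⬝ᵥ x = 0) :
    ∃ φ : Dual (ZMod 2) (Fin n → ZMod 2), φ x = 0 ∧ (u ≠ 0 → φ ≠ 0) ∧
      eGL n (Idx.tv x φ) = TvG x u h := by
  refine ⟨dotProductBilin (ZMod 2) (ZMod 2) u, ?_, ?_, ?_⟩
  · exact h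
  · intro hu h0
    apply hu
    funext i
    have := congrArg (fun f : Dual (ZMod 2) (Fin n → ZMod 2) => f (Pi.single i 1)) h0
    have h1 : u ⬝ᵥ Pi.single i 1 = 0 := this
    rwa [dot_single] at h1
  · rw [← MulEquiv.eq_symm_apply]
    apply LinearEquiv.ext
    intro y
    rw [eGL_symm_apply, Idx.tv_apply (by exact h)]
    show y + (u ⬝ᵥ y) • x = Tv x u *ᵥ y
    rw [Tv, add_mulVec, one_mulVec, vecMulVec_mulVec]
    congr 1
    funext i
    simp [mul_comm]

/-- **Proper subgroups of `GL_n(F_2)`, `n ≥ 5`, have index at least `2 ^ n - 1`.** -/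
theorem GL_index_exact {n : ℕ} (hn : 5 ≤ n) (K : Subgroup (GL (Fin n) (ZMod 2))) (hK : K ≠ ⊤) :
    2 ^ n - 1 ≤ Nat.card (GL (Fin n) (ZMod 2) ⧸ K) := by
  classical
  by_contra hlt
  push Not at hlt
  obtain ⟨m, rfl⟩ : ∃ m, n = m + 2 := ⟨n - 2, by omega⟩
  have : Fintype (GL (Fin (m + 2)) (ZMod 2) ⧸ K) := Fintype.ofFinite _
  let act : MulAction ((Fin (m + 2) → ZMod 2) ≃ₗ[ZMod 2] (Fin (m + 2) → ZMod 2))
    (GL (Fin (m + 2)) (ZMod 2) ⧸ K) := MulAction.compHom _ (eGL (m + 2)).toMonoidHom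
  have hact : ∀ (g : (Fin (m + 2) → ZMod 2) ≃ₗ[ZMod 2] (Fin (m + 2) → ZMod 2))
      (x : GL (Fin (m + 2)) (ZMod 2) ⧸ K), g • x = eGL (m + 2) g • x := fun g x => rfl
  have htr : MulAction.IsPretransitive
      ((Fin (m + 2) → ZMod 2) ≃ₗ[ZMod 2] (Fin (m + 2) → ZMod 2))
      (GL (Fin (m + 2)) (ZMod 2) ⧸ K) := by
    refine ⟨fun x y => ?_⟩
    obtain ⟨g, hg⟩ := MulAction.exists_smul_eq (GL (Fin (m + 2)) (ZMod 2)) x y
    refine ⟨(eGL (m + 2)).symm g, ?_⟩
    rw [hact, MulEquiv.apply_symm_apply, hg]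
  have hcardV : Nat.card (Fin (m + 2) → ZMod 2) = 2 ^ (m + 2) := by
    simp [Nat.card_eq_fintype_card, ZMod.card]
  have hpow : 32 ≤ 2 ^ (m + 2) := by
    calc 32 = 2 ^ 5 := by norm_num
      _ ≤ 2 ^ (m + 2) := Nat.pow_le_pow_right (by norm_num) hn
  have H : Idx.Hyp (Fin (m + 2) → ZMod 2) (GL (Fin (m + 2)) (ZMod 2) ⧸ K) := by
    refine ⟨inferInstance, ?_, ?_⟩
    · rw [hcardV, ← Nat.card_eq_fintype_card]
      omega
    · by_contra hcon
      push Not at hcon
      apply hK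
      have h2 : Vsub (0 : Fin (m + 2)) ≤ K.normalCore := by
        rintro _ ⟨u, hu, rfl⟩ g
        obtain ⟨φ, h1, h2, h3⟩ := eGL_tv hu
        have h4 : TvG (Pi.single 0 1) u hu • (QuotientGroup.mk g⁻¹ :
            GL (Fin (m + 2)) (ZMod 2) ⧸ K) = QuotientGroup.mk g⁻¹ := by
          by_cases hu0 : u = 0
          · have : TvG (Pi.single 0 1) u hu = 1 := by
              apply Units.ext
              show Tv _ u = 1
              rw [hu0, Tv]; simp
            rw [this, one_smul]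
          · rw [← h3, ← hact]
            exact hcon _ φ _ (by
              intro h
              have := congrFun h 0
              simp at this) (h2 hu0) h1
        have h5 : (QuotientGroup.mk (TvG (Pi.single 0 1) u hu * g⁻¹) :
          GL (Fin (m + 2)) (ZMod 2) ⧸ K) = QuotientGroup.mk g⁻¹ := h4
        rw [QuotientGroup.eq] at h5
        have h6 : (TvG (Pi.single 0 1) u hu * g⁻¹)⁻¹ * g⁻¹ =
          (g * TvG (Pi.single 0 1) u hu * g⁻¹)⁻¹ := by group
        rw [h6] at h5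
        exact K.inv_mem_iff.1 h5
      have h3 := normal_eq_top K.normalCore h2
      rw [eq_top_iff, ← h3]
      exact K.normalCore_le
  exact H.false (by rw [hcardV]; exact hpow)

end H54.UPM
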