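import Pool.Agent.H54.UPM.Idx.Dich

/-!
# The second case of the dichotomy is impossible
-/

namespace H54.UPM.Idx

open Module

variable {V : Type} [AddCommGroup V] [Module (ZMod 2) V]
variable {X : Type} [MulAction (V ≃ₗ[ZMod 2] V) X]

/-- The commutator of two transvections. -/
theorem comm_mem {v w : V} {x : X} {φ ψ : Dual (ZMod 2) V} (h1 : φ ∈ T v x) (h2 : ψ ∈ T w x)
    (h3 : φ w = 1) (h4 : ψ v = 0) : ψ ∈ T v x := by
  have hψw : ψ w = 0 := h2.1
  have e : tv w ψ * tv v φ * (tv w ψ)⁻¹ = tv v (φ + ψ) := by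
    rw [tv_conj, tv_fix hψw h4]
    congr 1
    ext y
    simp only [LinearMap.comp_apply, LinearEquiv.coe_coe, tv_inv, LinearMap.add_apply]
    rw [tv_apply hψw, map_add, map_smul, h3, smul_eq_mul, mul_one]
  have h5 : φ + ψ ∈ T v x := by
    refine ⟨by rw [LinearMap.add_apply, h1.1, h4, add_zero], ?_⟩
    have h6 : (tv w ψ)⁻¹ • x = x := by rw [tv_inv]; exact h2.2
    rw [← e, mul_smul, mul_smul, h6, h1.2, h2.2]
  have h6 := (T v x).add_mem h1 h5
  rwa [← add_assoc, dual_add_self, zero_add] at h6

variable [Fintype X]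

namespace Hyp

variable (H : Hyp V X)
include H

theorem caseB_false (hV : 4 < Nat.card V)
    (h : ∀ v u w : V, Ind3 v u w → ∀ x : X, A v u x → ¬ A v w x) : False := by
  have := H.finV
  have hfd : Finite (Dual (ZMod 2) V) := finite_dual
  obtain ⟨v0, φ0, x, hv0, -, -, -⟩ := H.move
  have hAA : ∀ v : V, (T v x).dualCoannihilator.dualAnnihilator = T v x := fun v =>
    Subspace.dualCoannihilator_dualAnnihilator_eq
  -- the lines
  have hline : ∀ v : V, v ≠ 0 → ∃ u, u ≠ 0 ∧ u ≠ v ∧
      ∀ z, A v z x ↔ (z = 0 ∨ z = v ∨ z = u ∨ z = v + u) := by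
    intro v hv
    obtain ⟨u, hu, huv, hA⟩ := exists_A_of_ne (H.caseB h hv x)
    refine ⟨u, hu, huv, fun z => ⟨?_, ?_⟩⟩
    · intro hz
      by_contra hcon
      push Not at hcon
      exact h v u z ⟨hv, hu, huv, hcon.1, hcon.2.1, hcon.2.2.1, hcon.2.2.2⟩ x hA hz
    · rintro (rfl | rfl | rfl | rfl)
      · intro φ _; exact map_zero φ
      · intro φ hφ; exact hφ.1
      · exact hA
      · exact A_add hA
  -- the key inclusion
  have hincl : ∀ v w z : V, ¬ A v w x → A v z x → A w z x ∨ A w (z + v) x := by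
    intro v w z hw hz
    -- `z` lies in `L_w + ⟨v⟩`
    have h1 : z ∈ (T w x).dualCoannihilator ⊔ Submodule.span (ZMod 2) {v} := by
      by_contra hcon
      obtain ⟨ψ, hψ, hψ'⟩ := Submodule.exists_le_ker_of_notMem hcon
      have h2 : ψ ∈ T w x := by
        rw [← hAA w, Submodule.mem_dualAnnihilator]
        intro y hy
        exact hψ' (Submodule.mem_sup_left hy)
      have h3 : ψ v = 0 := hψ' (Submodule.mem_sup_right (Submodule.mem_span_singleton_self v))
      unfold A at hw
      push Not at hw
      obtain ⟨φ, hφ, hφw⟩ := hw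
      exact hψ (hz ψ (comm_mem hφ h2 (z2_ne hφw) h3))
    rw [Submodule.mem_sup] at h1
    obtain ⟨a, ha, b, hb, hab⟩ := h1
    rw [← A_iff] at ha
    rw [mem_span1] at hb
    rcases hb with rfl | rfl
    · left
      rw [add_zero] at hab
      rw [← hab]; exact ha
    · right
      have : z + b = a := by rw [← hab, add_assoc, vv, add_zero]
      rw [this]; exact ha
  -- lines through points of a line
  have hsymm : ∀ v w : V, v ≠ 0 → w ≠ 0 → A v w x → A w v x := by
    intro v w hv hw hA
    by_cases hvw : v = w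
    · rw [hvw]; intro φ hφ; exact hφ.1
    by_contra hcon
    -- `L_w ⊆ L_v + ⟨w⟩ = L_v`, so the lines are equal by counting
    have h1 : ∀ z, A w z x → A v z x := by
      intro z hz
      rcases hincl w v z hcon hz with h2 | h2
      · exact h2
      · have h3 : A v (z + w + w) x := by
          intro φ hφ
          rw [map_add, h2 φ hφ, hA φ hφ, add_zero]
        rwa [add_assoc, vv, add_zero] at h3
    obtain ⟨u, hu, huv, hL⟩ := hline v hv
    obtain ⟨u', hu', huw, hL'⟩ := hline w hw
    have h2 := (hL w).1 hA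
    have h3 := (hL u').1 (h1 u' ((hL' u').2 (by simp)))
    have h4 : ¬ (v = 0 ∨ v = w ∨ v = u' ∨ v = w + u') := fun hc => hcon ((hL' v).2 hc)
    push Not at h4
    -- `w` and `u'` are two different nonzero vectors of `{v, u, v + u}` other than `v`
    have hw' : w = u ∨ w = v + u := by
      rcases h2 with h2 | h2 | h2 | h2
      · exact absurd h2 hw
      · exact absurd h2.symm hvw
      · exact Or.inl h2
      · exact Or.inr h2
    have hu'' : u' = u ∨ u' = v + u := by
      rcases h3 with h3 | h3 | h3 | h3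
      · exact absurd h3 hu'
      · exact absurd h3.symm h4.2.2.1
      · exact Or.inl h3
      · exact Or.inr h3
    rcases hw' with rfl | rfl <;> rcases hu'' with h5 | h5
    · exact huw h5
    · apply h4.2.2.2
      rw [h5, add_comm v w, ← add_assoc, vv, zero_add]
    · apply h4.2.2.2
      rw [h5, add_assoc, vv, add_zero]
    · exact huw h5
  -- all lines are equal
  obtain ⟨u, hu, huv, hL⟩ := hline v0 hv0
  have hall : ∀ w : V, A v0 w x := by
    intro w
    by_contra hcon
    have hw0 : w ≠ 0 := by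
      rintro rfl
      exact hcon (fun φ _ => map_zero φ)
    -- a common nonzero vector
    obtain ⟨z, hz0, hz1, hz2⟩ : ∃ z : V, z ≠ 0 ∧ A v0 z x ∧ A w z x := by
      rcases hincl v0 w u hcon ((hL u).2 (by simp)) with h1 | h1
      · exact ⟨u, hu, (hL u).2 (by simp), h1⟩
      · refine ⟨u + v0, ?_, (hL _).2 (by rw [add_comm]; simp), h1⟩
        rw [ne_eq, add_eq_zero_iff']
        exact huv
    have h2 := hsymm w z hw0 hz0 hz2
    have h3 := hsymm v0 z hv0 hz0 hz1
    -- the line of `z` contains `v0`, `w`, `z`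
    by_cases hzv : z = v0
    · rw [hzv] at h2
      exact hcon h2
    have h4 : w = z ∨ w = v0 ∨ w = z + v0 := by
      by_contra hc
      push Not at hc
      exact h z v0 w ⟨hz0, hv0, fun e => hzv e.symm, hw0, hc.1, hc.2.1, hc.2.2⟩ x h3 h2
    rcases h4 with rfl | rfl | rfl
    · exact hcon hz1
    · exact hcon (fun φ hφ => hφ.1)
    · apply hcon
      intro φ hφ
      rw [map_add, hz1 φ hφ, hφ.1, add_zero]
  have : Fintype V := Fintype.ofFinite _
  classical
  rw [Nat.card_eq_fintype_card, ← Finset.card_univ] at hV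
  have hsub : (Finset.univ : Finset V) ⊆ {0, v0, u, v0 + u} := by
    intro w _
    have := (hL w).1 (hall w)
    simpa using this
  have h1 := Finset.card_le_card hsub
  have h2 : ({0, v0, u, v0 + u} : Finset V).card ≤ 4 := Finset.card_le_four
  omega

end Hyp

end H54.UPM.Idx
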