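import Pool.Agent.H54.UPM.Idx.Count

/-!
# The sets `A v u` are single orbits
-/

namespace H54.UPM.Idx

open Module

variable {V : Type} [AddCommGroup V] [Module (ZMod 2) V]

/-- The functionals vanishing at `v`. -/
def perp (v : V) : Submodule (ZMod 2) (Dual (ZMod 2) V) where
  carrier := {φ | φ v = 0}
  add_mem' := by
    intro φ ψ h1 h2
    show (φ + ψ) v = 0
    rw [LinearMap.add_apply, show φ v = 0 from h1, show ψ v = 0 from h2, add_zero]
  zero_mem' := rfl
  smul_mem' := by
    intro c φ h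
    show (c • φ) v = 0
    rw [LinearMap.smul_apply, show φ v = 0 from h, smul_zero]

theorem mem_perp {v : V} {φ : Dual (ZMod 2) V} : φ ∈ perp v ↔ φ v = 0 := Iff.rfl

/-- The sign of an element of the field with two elements. -/
def sgn (a : ZMod 2) : ℤ := if a = 0 then 1 else -1

theorem sgn_add_one (a : ZMod 2) : sgn (a + 1) = - sgn a := by revert a; decide

theorem sgn_zero : sgn 0 = 1 := rfl

theorem sgn_sum_of {P : Submodule (ZMod 2) (Dual (ZMod 2) V)} [Fintype P] {u : V}
    (h : ∀ φ ∈ P, φ u = 0) : ∑ φ : P, sgn (φ.1 u) = Fintype.card P := by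
  rw [Finset.sum_congr rfl (fun φ _ => show sgn (φ.1 u) = 1 by rw [h φ.1 φ.2]; rfl)]
  simp

theorem sgn_sum_of_not {P : Submodule (ZMod 2) (Dual (ZMod 2) V)} [Fintype P] {u : V}
    (h : ¬ ∀ φ ∈ P, φ u = 0) : ∑ φ : P, sgn (φ.1 u) = 0 := by
  push Not at h
  obtain ⟨φ0, h0, h1⟩ := h
  have h1 := z2_ne h1
  have key : ∑ φ : P, sgn (φ.1 u) = ∑ φ : P, - sgn (φ.1 u) := by
    apply Fintype.sum_bijective (fun φ : P => φ + ⟨φ0, h0⟩)
    · exact (Equiv.addRight (⟨φ0, h0⟩ : P)).bijective
    · intro φ
      show sgn (φ.1 u) = - sgn ((φ.1 + φ0) u)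
      rw [LinearMap.add_apply, h1, sgn_add_one, neg_neg]
  rw [Finset.sum_neg_distrib] at key
  omega

theorem finite_dual [Finite V] : Finite (Dual (ZMod 2) V) :=
  Finite.of_injective (fun f : Dual (ZMod 2) V => (f : V → ZMod 2)) DFunLike.coe_injective

/-- Twice the number of functionals vanishing at `v` is the number of functionals. -/
theorem card_perp [Finite V] {v : V} (hv : v ≠ 0) : 2 * Nat.card (perp v) = Nat.card V := by
  classical
  have : Finite (Dual (ZMod 2) V) := finite_dual
  have : Fintype (Dual (ZMod 2) V) := Fintype.ofFinite _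
  have hV : Nat.card V = Nat.card (Dual (ZMod 2) V) := by
    have h1 := Module.natCard_eq_pow_finrank (K := ZMod 2) (V := V)
    have h2 := Module.natCard_eq_pow_finrank (K := ZMod 2) (V := Dual (ZMod 2) V)
    rw [h1, h2, Subspace.dual_finrank_eq]
  have h1 : ∑ φ : Dual (ZMod 2) V, sgn (φ v) = 0 := by
    obtain ⟨φ0, -, h1, -⟩ := exists_fun (⊥ : Submodule (ZMod 2) V) (u := v) (u' := v)
      (by simpa using hv) (by simpa using hv)
    have key : ∑ φ : Dual (ZMod 2) V, sgn (φ v) = ∑ φ : Dual (ZMod 2) V, - sgn (φ v) := by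
      apply Fintype.sum_bijective (fun φ : Dual (ZMod 2) V => φ + φ0)
      · exact (Equiv.addRight φ0).bijective
      · intro φ
        show sgn (φ v) = - sgn ((φ + φ0) v)
        rw [LinearMap.add_apply, h1, sgn_add_one, neg_neg]
    rw [Finset.sum_neg_distrib] at key
    omega
  have h2 : ∀ φ : Dual (ZMod 2) V, sgn (φ v) = 2 * (if φ v = 0 then 1 else 0) - 1 := by
    intro φ
    rcases z2 (φ v) with h | h <;> rw [h] <;> decide
  rw [Finset.sum_congr rfl (fun φ _ => h2 φ), Finset.sum_sub_distrib, ← Finset.mul_sum,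
    Finset.sum_boole] at h1
  have h3 : Nat.card (perp v) = (Finset.univ.filter fun φ : Dual (ZMod 2) V => φ v = 0).card := by
    exact Nat.subtype_card _ (fun φ => by simp [mem_perp])
  rw [hV, h3, Nat.card_eq_fintype_card]
  have h4 : ∑ φ : Dual (ZMod 2) V, (1 : ℤ) = Fintype.card (Dual (ZMod 2) V) := by simp
  rw [h4] at h1
  push_cast at h1
  omega

variable {X : Type} [MulAction (V ≃ₗ[ZMod 2] V) X] [Fintype X]

open Classical in
/-- The double counting. -/
theorem sum_A [Finite V] {v u : V} (hv : v ≠ 0) (hu : u ≠ 0) (huv : u ≠ v)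
    {φ0 : Dual (ZMod 2) V} (hφ0 : φ0 ≠ 0) (hφ0v : φ0 v = 0) :
    (∑ x : X, if A v u x then (Nat.card (T v x) : ℤ) else 0) =
      Fintype.card X - fix (X := X) (tv v φ0) := by
  have : Finite (Dual (ZMod 2) V) := finite_dual
  have : Fintype (Dual (ZMod 2) V) := Fintype.ofFinite _
  set f := fix (X := X) (tv v φ0) with hf
  -- the double sum
  have h1 : ∀ x : X, (if A v u x then (Nat.card (T v x) : ℤ) else 0) =
      ∑ φ : Dual (ZMod 2) V, if φ v = 0 ∧ tv v φ • x = x then sgn (φ u) else 0 := by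
    intro x
    have e1 : ∑ φ : Dual (ZMod 2) V, (if φ v = 0 ∧ tv v φ • x = x then sgn (φ u) else 0) =
        ∑ φ : T v x, sgn (φ.1 u) := by
      rw [← Finset.sum_filter]
      exact (Finset.sum_subtype _ (fun φ => by simp [mem_T]) _)
    rw [e1]
    by_cases h : A v u x
    · rw [if_pos h, sgn_sum_of h, Nat.card_eq_fintype_card]
    · rw [if_neg h, sgn_sum_of_not h]
  rw [Finset.sum_congr rfl (fun x _ => h1 x), Finset.sum_comm]
  have h2 : ∀ φ : Dual (ZMod 2) V,
      (∑ x : X, if φ v = 0 ∧ tv v φ • x = x then sgn (φ u) else 0) =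
      (if φ v = 0 then (f : ℤ) * sgn (φ u) else 0) +
        (if φ = 0 then (Fintype.card X : ℤ) - f else 0) := by
    intro φ
    by_cases hφ : φ v = 0
    · have e1 : (∑ x : X, if φ v = 0 ∧ tv v φ • x = x then sgn (φ u) else 0) =
          (fix (X := X) (tv v φ) : ℤ) * sgn (φ u) := by
        have e2 : ∀ x : X, (if φ v = 0 ∧ tv v φ • x = x then sgn (φ u) else 0) =
            if tv v φ • x = x then sgn (φ u) else 0 := by
          intro x
          by_cases h : tv v φ • x = x
          · rw [if_pos ⟨hφ, h⟩, if_pos h]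
          · rw [if_neg (fun h' => h h'.2), if_neg h]
        rw [Finset.sum_congr rfl (fun x _ => e2 x), ← Finset.sum_filter, Finset.sum_const,
          nsmul_eq_mul]
        congr 2
        rw [fix, Nat.card_eq_fintype_card]
        exact (Fintype.card_subtype _).symm
      rw [e1, if_pos hφ]
      by_cases h0 : φ = 0
      · subst h0
        rw [if_pos rfl, LinearMap.zero_apply, sgn_zero, mul_one, mul_one, tv_zero]
        have : fix (X := X) (1 : V ≃ₗ[ZMod 2] V) = Fintype.card X := by
          rw [fix, Nat.card_eq_fintype_card, Fintype.card_subtype]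
          simp
        rw [this]
        ring
      · rw [if_neg h0, add_zero, fix_eq (X := X) hv hv h0 hφ0 hφ hφ0v]
    · have h0 : φ ≠ 0 := by
        rintro rfl
        exact hφ rfl
      rw [if_neg hφ, if_neg h0]
      simp [hφ]
  rw [Finset.sum_congr rfl (fun φ _ => h2 φ), Finset.sum_add_distrib, Finset.sum_ite_eq' Finset.univ
    (0 : Dual (ZMod 2) V), if_pos (Finset.mem_univ _), ← Finset.sum_filter, ← Finset.mul_sum]
  have h3 : ∑ φ ∈ Finset.univ.filter (fun φ : Dual (ZMod 2) V => φ v = 0), sgn (φ u) =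
      ∑ φ : perp v, sgn (φ.1 u) := Finset.sum_subtype _ (fun φ => by simp [mem_perp]) _
  rw [h3, sgn_sum_of_not, mul_zero, zero_add]
  -- there is a functional vanishing at `v` but not at `u`
  intro hcon
  have hu' : u ∉ Submodule.span (ZMod 2) {v} := by
    rw [Submodule.mem_span_singleton]
    rintro ⟨a, ha⟩
    rcases z2 a with rfl | rfl
    · rw [zero_smul] at ha; exact hu ha.symm
    · rw [one_smul] at ha; exact huv ha.symm
  obtain ⟨β, h1, h2, -⟩ := exists_fun _ hu' hu'
  have := hcon β (h1 v (Submodule.mem_span_singleton_self v))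
  rw [h2] at this
  exact one_ne_zero this

end H54.UPM.Idx
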