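import Pool.Agent.H54.UPM.Idx.Fisher
import Pool.Agent.H54.UPM.Idx.Lines

/-!
# First case: the regular case is impossible
-/

namespace H54.UPM.Idx

open Module

variable {V : Type} [AddCommGroup V] [Module (ZMod 2) V]
variable {X : Type} [MulAction (V ≃ₗ[ZMod 2] V) X]

/-- The regular case: all the groups of transvections with a given centre are regular. -/
theorem regular_false [Finite V] (hV : 32 ≤ Nat.card V) (x : X)
    (hreg : ∀ v : V, v ≠ 0 → ∀ y : X, T v y = ⊥)
    (htr : ∀ v : V, v ≠ 0 → ∀ y y' : X, ∃ φ : Dual (ZMod 2) V, φ v = 0 ∧ tv v φ • y = y') :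
    False := by
  classical
  have : Fintype V := Fintype.ofFinite _
  rw [Nat.card_eq_fintype_card] at hV
  -- uniqueness
  have huniq : ∀ v : V, v ≠ 0 → ∀ φ φ' : Dual (ZMod 2) V, φ v = 0 → φ' v = 0 → ∀ y : X,
      tv v φ • y = tv v φ' • y → φ = φ' := by
    intro v hv φ φ' h h' y he
    have h1 : φ + φ' ∈ T v y := by
      refine ⟨by rw [LinearMap.add_apply, h, h', add_zero], ?_⟩
      rw [← tv_add h h', mul_smul, ← he, ← mul_smul, tv_sq, one_smul]
    rw [hreg v hv, Submodule.mem_bot] at h1
    have h2 : φ + φ' + φ' = φ' := by rw [h1, zero_add]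
    rwa [add_assoc, dual_add_self, add_zero] at h2
  have hno : ∀ v : V, v ≠ 0 → ∀ φ : Dual (ZMod 2) V, φ v = 0 → ∀ y : X, tv v φ • y = y → φ = 0 := by
    intro v hv φ h y he
    apply huniq v hv φ 0 h rfl y
    rw [tv_zero, one_smul, he]
  -- two independent vectors and a functional
  have hbig : ∀ S : Finset V, S.card ≤ 4 → ∃ z, z ∉ S := by
    intro S hS
    by_contra hcon
    push Not at hcon
    have h1 : (Finset.univ : Finset V).card ≤ S.card := Finset.card_le_card fun z _ => hcon z
    rw [Finset.card_univ] at h1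
    omega
  obtain ⟨v, hv⟩ : ∃ v : V, v ≠ 0 := by
    obtain ⟨v, hv⟩ := hbig {0} (by simp)
    exact ⟨v, by simpa using hv⟩
  obtain ⟨w, hw, hwv⟩ : ∃ w : V, w ≠ 0 ∧ w ≠ v := by
    obtain ⟨w, hw⟩ := hbig {0, v} (Finset.card_le_two.trans (by norm_num))
    exact ⟨w, by simpa using hw⟩
  obtain ⟨ψ, hψ0, hψv, hψw⟩ : ∃ ψ : Dual (ZMod 2) V, ψ ≠ 0 ∧ ψ v = 0 ∧ ψ w = 0 := by
    obtain ⟨z, hz⟩ := hbig {0, v, w, v + w} Finset.card_le_four
    have hz' : z ∉ Submodule.span (ZMod 2) {v, w} := by
      rw [mem_span2]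
      simpa using hz
    obtain ⟨ψ, h1, h2, -⟩ := exists_fun _ hz' hz'
    refine ⟨ψ, ?_, h1 v (Submodule.subset_span (by simp)), h1 w (Submodule.subset_span (by simp))⟩
    rintro rfl
    exact zero_ne_one h2
  have hvw : v + w ≠ 0 := by
    rw [ne_eq, add_eq_zero_iff']
    exact fun h => hwv h.symm
  obtain ⟨α, hαv, hα⟩ := htr v hv (tv w ψ • x) x
  have hα0 : α ≠ 0 := by
    rintro rfl
    rw [tv_zero, one_smul] at hα
    exact hψ0 (hno w hw ψ hψw x hα)
  have hαψ : α ≠ ψ := by
    rintro rfl
    rw [← mul_smul, tv_add_left hψv hψw] at hα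
    exact hψ0 (hno _ hvw α (by rw [map_add, hψv, hψw, add_zero]) x hα)
  have hαw : α w = 0 := by
    by_contra hcon
    have h1 : α w = 1 := z2_ne hcon
    have e : tv w ψ * tv v α * tv w ψ = tv v (α + ψ) := by
      have h2 := tv_conj (tv w ψ) v α
      rw [tv_inv, tv_fix hψw hψv] at h2
      rw [h2]
      congr 1
      ext y
      simp only [LinearMap.comp_apply, LinearEquiv.coe_coe, LinearMap.add_apply]
      rw [tv_apply hψw, map_add, map_smul, h1, smul_eq_mul, mul_one]
    have h2 : tv v α * (tv w ψ * tv v α * tv w ψ) = tv v ψ := by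
      rw [e, tv_add hαv (by rw [LinearMap.add_apply, hαv, hψv, add_zero]), ← add_assoc,
        dual_add_self, zero_add]
    have h3 : tv v ψ • x = x := by
      rw [← h2]
      simp only [mul_smul]
      rw [hα, hα]
    exact hψ0 (hno v hv ψ hψv x h3)
  -- the vector `u`
  obtain ⟨u, hψu, hαu⟩ : ∃ u, ψ u = 0 ∧ α u = 1 := by
    obtain ⟨y, hy⟩ : ∃ y, α y = 1 := by
      by_contra hcon
      push Not at hcon
      exact hα0 (LinearMap.ext fun y => z2_ne' (hcon y))
    rcases z2 (ψ y) with h1 | h1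
    · exact ⟨y, h1, hy⟩
    · obtain ⟨z, hz⟩ : ∃ z, α z ≠ ψ z := by
        by_contra hcon
        push Not at hcon
        exact hαψ (LinearMap.ext hcon)
      rcases z2 (ψ z) with h2 | h2
      · exact ⟨z, h2, z2_ne (by rw [h2] at hz; exact hz)⟩
      · have h3 : α z = 0 := z2_ne' (by rw [h2] at hz; exact hz)
        refine ⟨y + z, ?_, ?_⟩
        · rw [map_add, h1, h2]; decide
        · rw [map_add, hy, h3, add_zero]
  -- the vector `u'`
  obtain ⟨u', hαu', hψu', hu'⟩ : ∃ u', α u' = 0 ∧ ψ u' = 0 ∧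
      u' ∉ Submodule.span (ZMod 2) {v, w} := by
    by_contra hcon
    push Not at hcon
    have h1 : (Finset.univ : Finset V).card ≤
        4 * (Finset.univ : Finset (ZMod 2 × ZMod 2)).card := by
      apply Finset.card_le_mul_card_image_of_maps_to (f := fun y : V => (α y, ψ y))
        (fun _ _ => Finset.mem_univ _)
      intro b _
      by_cases hemp : (Finset.univ.filter fun y : V => (α y, ψ y) = b) = ∅
      · rw [hemp]; simp
      · obtain ⟨y0, hy0⟩ := Finset.nonempty_iff_ne_empty.2 hemp
        rw [Finset.mem_filter] at hy0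
        calc (Finset.univ.filter fun y : V => (α y, ψ y) = b).card
            ≤ (({0, v, w, v + w} : Finset V).image fun z => z + y0).card := by
              apply Finset.card_le_card
              intro y hy
              rw [Finset.mem_filter] at hy
              rw [Finset.mem_image]
              refine ⟨y + y0, ?_, by rw [add_assoc, vv, add_zero]⟩
              have h2 : (α y, ψ y) = (α y0, ψ y0) := hy.2.trans hy0.2.symm
              rw [Prod.mk.injEq] at h2
              have h3 := hcon (y + y0) (by rw [map_add, h2.1]; exact CharTwo.add_self_eq_zero _)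
                (by rw [map_add, h2.2]; exact CharTwo.add_self_eq_zero _)
              rw [mem_span2] at h3
              simpa using h3
          _ ≤ _ := Finset.card_image_le
          _ ≤ 4 := Finset.card_le_four
    rw [Finset.card_univ, Finset.card_univ] at h1
    have h2 : Fintype.card (ZMod 2 × ZMod 2) = 4 := by simp
    rw [h2] at h1
    omega
  have hu : u ∉ Submodule.span (ZMod 2) {v, w} := by
    rw [mem_span2]
    rintro (h | h | h | h)
    · rw [h, map_zero] at hαu; exact zero_ne_one hαu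
    · rw [h, hαv] at hαu; exact zero_ne_one hαu
    · rw [h, hαw] at hαu; exact zero_ne_one hαu
    · rw [h, map_add, hαv, hαw, add_zero] at hαu; exact zero_ne_one hαu
  obtain ⟨β, hβ, hβu, hβu'⟩ := exists_fun _ hu hu'
  have hβv : β v = 0 := hβ v (Submodule.subset_span (by simp))
  have hβw : β w = 0 := hβ w (Submodule.subset_span (by simp))
  have hβs : β (u + u') = 0 := by rw [map_add, hβu, hβu']; decide
  set g := tv (u + u') β with hg
  obtain ⟨β0, hβ0, hκ⟩ := htr v hv (g • x) x
  set κ := tv v β0 * g with hκd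
  have hκx : κ • x = x := by rw [hκd, mul_smul, hκ]
  have hκx' : κ⁻¹ • x = x := by
    rw [inv_smul_eq_iff, hκx]
  -- action of `κ`
  have hκapp : ∀ y, κ y = g y + β0 (g y) • v := by
    intro y
    rw [hκd, LinearEquiv.mul_apply, tv_apply hβ0]
  have hgv : g v = v := tv_fix hβs hβv
  have hgw : g w = w := tv_fix hβs hβw
  have hgu : g u = u' := by
    rw [hg, tv_move hβs hβu, ← add_assoc, vv, zero_add]
  have hψg : ∀ y, ψ (g y) = ψ y := by
    intro y
    rw [hg, tv_apply hβs, map_add, map_smul, map_add, hψu, hψu', add_zero, smul_zero, add_zero]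
  have hψκ : ∀ y, ψ (κ y) = ψ y := by
    intro y
    rw [hκapp, map_add, map_smul, hψv, smul_zero, add_zero, hψg]
  have hκv : κ v = v := by rw [hκapp, hgv, hβ0, zero_smul, add_zero]
  have hκw : κ w = w + β0 w • v := by rw [hκapp, hgw]
  have hκu : κ u = u' + β0 u' • v := by rw [hκapp, hgu]
  have hκi : ∀ y, κ ((κ⁻¹ : V ≃ₗ[ZMod 2] V) y) = y := by
    intro y
    rw [← LinearEquiv.mul_apply, mul_inv_cancel]; rfl
  have hκi' : ∀ y, (κ⁻¹ : V ≃ₗ[ZMod 2] V) (κ y) = y := by
    intro y
    rw [← LinearEquiv.mul_apply, inv_mul_cancel]; rfl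
  have hψκi : ψ.comp (κ⁻¹ : V ≃ₗ[ZMod 2] V).toLinearMap = ψ := by
    ext y
    simp only [LinearMap.comp_apply, LinearEquiv.coe_coe]
    rw [← hψκ, hκi]
  set α' : Dual (ZMod 2) V := α.comp (κ⁻¹ : V ≃ₗ[ZMod 2] V).toLinearMap with hα'
  have hα'v : α' v = 0 := by
    have h1 : (κ⁻¹ : V ≃ₗ[ZMod 2] V) v = v := by
      conv_lhs => rw [← hκv]
      rw [hκi']
    rw [hα', LinearMap.comp_apply, LinearEquiv.coe_coe, h1, hαv]
  have hcψ : (β0 w • ψ) v = 0 := by rw [LinearMap.smul_apply, hψv, smul_zero]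
  -- the conjugate of `κ₀`
  have hconj2 : κ * tv w ψ * κ⁻¹ = tv v (β0 w • ψ) * tv w ψ := by
    rw [tv_conj, hψκi, hκw]
    rcases z2 (β0 w) with h1 | h1
    · rw [h1, zero_smul, zero_smul, add_zero, tv_zero, one_mul]
    · rw [h1, one_smul, one_smul, tv_add_left hψv hψw, add_comm]
  have hconj1 : κ * tv v α * κ⁻¹ = tv v α' := by
    rw [tv_conj, hκv]
  have hfin : tv v (α' + β0 w • ψ) • (tv w ψ • x) = x := by
    rw [← tv_add hα'v hcψ, mul_smul, ← mul_smul (tv v (β0 w • ψ)), ← hconj2, ← hconj1]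
    simp only [mul_smul]
    rw [inv_smul_smul, hκx', hα, hκx]
  have h1 := huniq v hv (α' + β0 w • ψ) α (by rw [LinearMap.add_apply, hα'v, hcψ, add_zero]) hαv
    (tv w ψ • x) (by rw [hfin, hα])
  have h2 := congrArg (fun f : Dual (ZMod 2) V => f (κ u)) h1
  simp only [LinearMap.add_apply, LinearMap.smul_apply] at h2
  rw [hα', LinearMap.comp_apply, LinearEquiv.coe_coe, hκi', hαu, hψκ, hψu, smul_zero, add_zero,
    hκu, map_add, map_smul, hαu', hαv, smul_zero, add_zero] at h2
  exact one_ne_zero h2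

variable [Fintype X]

/-- A transitive nontrivial action of `GL_n(F_2)`, `n ≥ 5`, has at least `2 ^ n - 1` points. -/
theorem Hyp.false (H : Hyp V X) [MulAction.IsPretransitive (V ≃ₗ[ZMod 2] V) X]
    (hV : 32 ≤ Nat.card V) : False := by
  have := H.finV
  obtain ⟨v0, φ0, x, hv0, -, -, -⟩ := H.move
  rcases H.dich with h | h
  · have hreg : ∀ v : V, v ≠ 0 → ∀ y : X, T v y = ⊥ := by
      intro v hv y
      rcases H.caseA h hv y with h1 | h1
      · exact h1
      · exfalso
        apply H.no_fixed hv y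
        intro φ hφ
        have h2 : φ ∈ T v y := by rw [h1]; exact hφ
        exact h2.2
    refine regular_false hV x hreg ?_
    intro v hv y y'
    -- a second vector
    classical
    have : Fintype V := Fintype.ofFinite _
    rw [Nat.card_eq_fintype_card] at hV
    obtain ⟨u, hu, huv⟩ : ∃ u : V, u ≠ 0 ∧ u ≠ v := by
      by_contra hcon
      push Not at hcon
      have h1 : (Finset.univ : Finset V) ⊆ {0, v} := by
        intro z _
        by_cases hz : z = 0
        · simp [hz]
        · simp [hcon z hz]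
      have h2 := Finset.card_le_card h1
      rw [Finset.card_univ] at h2
      have h3 : ({0, v} : Finset V).card ≤ 2 := Finset.card_le_two
      omega
    have hA : ∀ z : X, A v u z := by
      intro z φ hφ
      rw [hreg v hv, Submodule.mem_bot] at hφ
      rw [hφ, LinearMap.zero_apply]
    exact H.single hv hu huv (hA y) (hA y')
  · exact H.caseB_false (by omega) h

end H54.UPM.Idx
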