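import Pool.Agent.H54.UPM.Idx.Orbit

/-!
# The sets `A v u` are single orbits, part 2
-/

namespace H54.UPM.Idx

open Module

variable {V : Type} [AddCommGroup V] [Module (ZMod 2) V]
variable {X : Type} [MulAction (V ≃ₗ[ZMod 2] V) X]

theorem card_fiber [Finite V] {v : V} {x y : X} {φ0 : Dual (ZMod 2) V} (h0 : φ0 v = 0)
    (hy : tv v φ0 • x = y) : Nat.card {φ : perp v // tv v φ.1 • x = y} = Nat.card (T v y) := by
  have hT : T v y = T v x := by rw [← hy, T_orbit h0]
  rw [hT]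
  apply Nat.card_congr
  have key : ∀ φ : Dual (ZMod 2) V, φ v = 0 → (tv v φ • x = y ↔ tv v (φ + φ0) • x = x) := by
    intro φ hφ
    rw [← hy, add_comm, ← tv_add h0 hφ, mul_smul]
    constructor
    · intro h
      rw [h, ← mul_smul, tv_sq, one_smul]
    · intro h
      have := congrArg (fun z => tv v φ0 • z) h
      simpa only [← mul_smul, ← mul_assoc, tv_sq, one_mul, one_smul] using this
  refine ⟨fun φ => ⟨φ.1.1 + φ0, ?_, ?_⟩, fun ψ => ⟨⟨ψ.1 + φ0, ?_⟩, ?_⟩, ?_, ?_⟩
  · rw [LinearMap.add_apply, h0, add_zero]; exact φ.1.2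
  · exact (key _ φ.1.2).1 φ.2
  · show (ψ.1 + φ0) v = 0
    rw [LinearMap.add_apply, h0, add_zero]; exact ψ.2.1
  · show tv v (ψ.1 + φ0) • x = y
    rw [key _ (by rw [LinearMap.add_apply, h0, add_zero]; exact ψ.2.1), add_assoc,
      dual_add_self, add_zero]
    exact ψ.2.2
  · intro φ
    apply Subtype.ext
    apply Subtype.ext
    show φ.1.1 + φ0 + φ0 = φ.1.1
    rw [add_assoc, dual_add_self, add_zero]
  · intro ψ
    apply Subtype.ext
    show ψ.1 + φ0 + φ0 = ψ.1
    rw [add_assoc, dual_add_self, add_zero]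

variable [Fintype X]

open Classical in
/-- The orbit of `x` under the transvections with centre `v`. -/
noncomputable def O (v : V) (x : X) : Finset X :=
  Finset.univ.filter fun y => ∃ φ : Dual (ZMod 2) V, φ v = 0 ∧ tv v φ • x = y

theorem mem_O {v : V} {x y : X} :
    y ∈ O v x ↔ ∃ φ : Dual (ZMod 2) V, φ v = 0 ∧ tv v φ • x = y := by
  classical
  rw [O, Finset.mem_filter]
  simp

theorem orbit_sum [Finite V] (v : V) (x : X) :
    ∑ y ∈ O v x, Nat.card (T v y) = Nat.card (perp v) := by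
  classical
  have : Finite (Dual (ZMod 2) V) := finite_dual
  have : Fintype (Dual (ZMod 2) V) := Fintype.ofFinite _
  have h1 : Nat.card (perp v) = ∑ y ∈ O v x,
      (Finset.univ.filter fun φ : perp v => tv v φ.1 • x = y).card := by
    rw [Nat.card_eq_fintype_card, ← Finset.card_univ]
    apply Finset.card_eq_sum_card_fiberwise
    intro φ _
    exact mem_O.2 ⟨φ.1, φ.2, rfl⟩
  rw [h1]
  apply Finset.sum_congr rfl
  intro y hy
  obtain ⟨φ0, h0, hy0⟩ := mem_O.1 hy
  rw [← card_fiber h0 hy0]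
  exact Nat.subtype_card _ (fun φ => by simp)

theorem A_nonempty [Finite V] {v u : V} (hv : v ≠ 0) (hu : u ≠ 0) (huv : u ≠ v)
    {φ0 : Dual (ZMod 2) V} (hφ0 : φ0 ≠ 0) (hφ0v : φ0 v = 0)
    (hnt : fix (X := X) (tv v φ0) < Fintype.card X) : ∃ x : X, A v u x := by
  classical
  by_contra hcon
  push Not at hcon
  have h := sum_A (X := X) hv hu huv hφ0 hφ0v
  rw [Finset.sum_congr rfl (fun x _ => if_neg (hcon x)), Finset.sum_const_zero] at h
  omega

theorem A_single [Finite V] {v u : V} (hv : v ≠ 0) (hu : u ≠ 0) (huv : u ≠ v)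
    {φ0 : Dual (ZMod 2) V} (hφ0 : φ0 ≠ 0) (hφ0v : φ0 v = 0)
    (hN : Fintype.card X < Nat.card V) {x x' : X} (hx : A v u x) (hx' : A v u x') :
    ∃ φ : Dual (ZMod 2) V, φ v = 0 ∧ tv v φ • x = x' := by
  classical
  by_contra hcon
  have h := sum_A (X := X) hv hu huv hφ0 hφ0v
  have hdisj : Disjoint (O v x) (O v x') := by
    rw [Finset.disjoint_left]
    intro y hy hy'
    obtain ⟨φ, h1, h2⟩ := mem_O.1 hy
    obtain ⟨φ', h3, h4⟩ := mem_O.1 hy'
    apply hcon
    refine ⟨φ' + φ, by rw [LinearMap.add_apply, h1, h3, add_zero], ?_⟩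
    rw [← tv_add h3 h1, mul_smul, h2, ← h4, ← mul_smul, tv_sq, one_smul]
  have h1 : ∑ y ∈ O v x ∪ O v x', (Nat.card (T v y) : ℤ) ≤
      ∑ y : X, if A v u y then (Nat.card (T v y) : ℤ) else 0 := by
    rw [← Finset.sum_filter]
    apply Finset.sum_le_sum_of_subset_of_nonneg
    · intro y hy
      rw [Finset.mem_filter]
      refine ⟨Finset.mem_univ _, ?_⟩
      rw [Finset.mem_union] at hy
      rcases hy with hy | hy
      · obtain ⟨φ, h1, h2⟩ := mem_O.1 hy
        rw [← h2]; exact A_orbit h1 hx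
      · obtain ⟨φ, h1, h2⟩ := mem_O.1 hy
        rw [← h2]; exact A_orbit h1 hx'
    · intro y _ _
      exact Int.natCast_nonneg _
  rw [Finset.sum_union hdisj, ← Nat.cast_sum, ← Nat.cast_sum, orbit_sum, orbit_sum, h] at h1
  have h2 := card_perp hv
  have h3 : 0 ≤ (fix (X := X) (tv v φ0) : ℤ) := Int.natCast_nonneg _
  omega

end H54.UPM.Idx
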